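import Pool.Agent.Lib.helper3.MeanAl

open scoped InnerProductSpace

namespace Pool.Agent.Results.MP_3feef6_an.FiniteDim

open Pool.Agent.Lib.helper3.MeanAl

variable {H : Type*} [NormedAddCommGroup H] [InnerProductSpace ℂ H] [CompleteSpace H]

/-- the mean transform `(S + |S| W) / 2` of `S` with polar factor `W` -/
noncomputable def meanT (S W : H →L[ℂ] H) : H →L[ℂ] H := (1 / 2 : ℂ) • (S + CFC.abs S * W)

variable [FiniteDimensional ℂ H]

/-- real part of the trace -/
noncomputable def tr : (H →L[ℂ] H) →+ ℝ where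
  toFun X := (LinearMap.trace ℂ H (X : H →ₗ[ℂ] H)).re
  map_zero' := by simp
  map_add' X Y := by
    rw [← Complex.add_re, ← map_add]
    rfl

omit [CompleteSpace H] [FiniteDimensional ℂ H] in
theorem tr_comm (X Y : H →L[ℂ] H) : tr (X * Y) = tr (Y * X) :=
  congrArg Complex.re (LinearMap.trace_mul_comm ℂ (X : H →ₗ[ℂ] H) (Y : H →ₗ[ℂ] H))

theorem tr_star_mul (X : H →L[ℂ] H) :
    tr (star X * X) = ∑ i, ‖X (stdOrthonormalBasis ℂ H i)‖ ^ 2 := by
  change (LinearMap.trace ℂ H _).re = _
  rw [LinearMap.trace_eq_sum_inner _ (stdOrthonormalBasis ℂ H), Complex.re_sum]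
  refine Finset.sum_congr rfl fun i _ => ?_
  change (⟪stdOrthonormalBasis ℂ H i,
    ContinuousLinearMap.adjoint X (X (stdOrthonormalBasis ℂ H i))⟫_ℂ).re = _
  rw [ContinuousLinearMap.adjoint_inner_right]
  exact inner_self_eq_norm_sq (𝕜 := ℂ) _

theorem tr_nonneg (X : H →L[ℂ] H) : 0 ≤ tr (star X * X) := by
  rw [tr_star_mul]; positivity

theorem eq_zero_of_tr {X : H →L[ℂ] H} (h : tr (star X * X) ≤ 0) : X = 0 := by
  rw [tr_star_mul] at h
  have h0 := (Finset.sum_eq_zero_iff_of_nonneg fun i _ => sq_nonneg _).1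
    (le_antisymm h (by positivity))
  apply ContinuousLinearMap.coe_injective
  apply (stdOrthonormalBasis ℂ H).toBasis.ext
  intro i
  simpa using h0 i (Finset.mem_univ i)

theorem tr_le {P V : H →L[ℂ] H} (hP : star P = P) (hV : V * star V * V = V) :
    tr (star (P * V) * (P * V)) ≤ tr (P * P) := by
  have hE : V * star V * (V * star V) = V * star V := by rw [← mul_assoc, hV]
  have h := tr_nonneg (P * (1 - V * star V))
  have e1 : star (P * (1 - V * star V)) * (P * (1 - V * star V)) =
      (1 - V * star V) * (P * P * (1 - V * star V)) := by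
    simp only [star_mul, star_sub, star_one, star_star, hP]
    noncomm_ring
  have e2 : P * P * (1 - V * star V) * (1 - V * star V) = P * P - P * P * V * star V := by
    have : (1 - V * star V) * (1 - V * star V) = 1 - V * star V := by
      rw [sub_mul, mul_sub, mul_sub, hE]; simp
    rw [mul_assoc, this]
    noncomm_ring
  rw [e1, tr_comm, e2, map_sub, tr_comm (P * P * V)] at h
  have e3 : star (P * V) * (P * V) = star V * (P * P * V) := by
    rw [star_mul, hP]; noncomm_ring
  rw [e3]
  linarith

/-- On a finite-dimensional space every fixed point of the mean-Aluthge transform is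
quasi-normal. -/
theorem result (H : Type*) [NormedAddCommGroup H] [InnerProductSpace ℂ H] [CompleteSpace H]
    [FiniteDimensional ℂ H] (T V W : H →L[ℂ] H) (hV : IsPolar T V)
    (hW : IsPolar (aluthge (1 / 2) T V) W) (h : meanT (aluthge (1 / 2) T V) W = T) :
    Commute T (star T * T) := by
  obtain ⟨hV1, -, hT⟩ := hV
  obtain ⟨hW1, -, -⟩ := hW
  have hP0 : 0 ≤ CFC.abs T := CFC.abs_nonneg T
  have hsq := CFC.abs_mul_abs T
  have hRR := rpow_mul_rpow hP0 (l := 1 / 2) (by norm_num) (by norm_num)
  have hhalf : (1 : ℝ) - 1 / 2 = 1 / 2 := by norm_num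
  have hS : aluthge (1 / 2) T V =
      CFC.rpow (CFC.abs T) (1 / 2) * V * CFC.rpow (CFC.abs T) (1 / 2) := by
    rw [aluthge, hhalf]
  rw [hhalf] at hRR
  have hR : star (CFC.rpow (CFC.abs T) (1 / 2)) = CFC.rpow (CFC.abs T) (1 / 2) :=
    (IsSelfAdjoint.of_nonneg (CFC.rpow_nonneg (a := CFC.abs T) (y := 1 / 2))).star_eq
  have hP : star (CFC.abs T) = CFC.abs T := (IsSelfAdjoint.of_nonneg hP0).star_eq
  generalize aluthge (1 / 2) T V = S at h hS
  have hQ : star (CFC.abs S) = CFC.abs S := (IsSelfAdjoint.of_nonneg (CFC.abs_nonneg S)).star_eq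
  have hQQ := CFC.abs_mul_abs S
  have a1 := tr_le hQ hW1
  rw [hQQ] at a1
  have h2 : S + CFC.abs S * W = T + T := by
    rw [← two_smul ℂ T, ← h, meanT, smul_smul]
    norm_num
  generalize CFC.abs S * W = Y at h2 a1
  generalize CFC.rpow (CFC.abs T) (1 / 2) = R at hS hRR hR
  generalize CFC.abs T = P at hT hsq hRR hP hP0
  have a2 := tr_nonneg (S - Y)
  have e1 : star (S + Y) * (S + Y) + star (S - Y) * (S - Y) =
      star S * S + star S * S + (star Y * Y + star Y * Y) := by
    rw [star_add, star_sub]; noncomm_ring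
  have e2 : star (T + T) * (T + T) = P * P + P * P + (P * P + P * P) := by
    rw [star_add, hsq]; noncomm_ring
  have a3 := congrArg tr e1
  rw [h2, e2] at a3
  simp only [map_add] at a3
  have a4 : tr (star S * S) = tr (star V * P * V * P) := by
    have : star S * S = R * (star V * (R * R) * V * R) := by
      rw [hS, star_mul, star_mul, hR]; noncomm_ring
    rw [this, tr_comm, mul_assoc _ R R, hRR]
  have a5 := tr_le hP hV1
  have e3 : star (P * V - V * P) * (P * V - V * P) = star (P * V) * (P * V) -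
      star V * P * V * P - P * (star V * P * V) + star (V * P) * (V * P) := by
    simp only [star_sub, star_mul, hP]
    noncomm_ring
  have hz : P * V - V * P = 0 := by
    apply eq_zero_of_tr
    rw [e3, map_add, map_sub, map_sub, tr_comm P, ← hT, ← hsq]
    linarith
  have hc : Commute V P := (sub_eq_zero.1 hz).symm
  rw [← hsq, hT]
  exact ((hc.mul_left (Commute.refl P))).mul_right (hc.mul_left (Commute.refl P))

end Pool.Agent.Results.MP_3feef6_an.FiniteDim
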